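import Pool.Agent.Lib_helper58.KT.Defs

/-!
# Prime powers: definitions
-/

set_option autoImplicit false

namespace Pool.Agent.KP

open NumberField Pool.Agent.TT Pool.Agent.KT

/-- The number of eigenvalues (with multiplicity) `x` with `|x ^ n - 1| < 1` for some `n > 0` with
`φ(n) ≤ D`: the eigenvalues that are congruent, modulo the maximal ideal, to roots of unity of an
order `n` with `φ(n) ≤ D`. -/
noncomputable def closeEig {p : ℕ} [Fact p.Prime] {d : ℕ} (N : Matrix (Fin d) (Fin d) ℂ_[p])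
    (D : ℕ) : ℕ := by
  classical
  exact (N.charpoly.roots.filter fun x => ∃ n : ℕ, 0 < n ∧ n.totient ≤ D ∧ ‖x ^ n - 1‖ < 1).card

/-- The element `g` fixes all roots of unity of `p`-power order. -/
def FixesRoots {K : Type} [Field K] [Algebra K Qbar] (p : ℕ) (g : Qbar ≃ₐ[K] Qbar) : Prop :=
  ∀ (n : ℕ) (z : Qbar), z ^ p ^ n = 1 → g z = z

/-- The representations `ρ p` over `ℂ_[p]`, for the primes `p` in the set `P`, are continuous. For
every `p` in `P` some element that fixes all roots of unity of `p`-power order has at most `e`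
eigenvalues that are roots of unity. For almost all `p` in `P` some element that fixes all roots of
unity of `p`-power order has at most `e` eigenvalues that are congruent, modulo the maximal ideal,
to roots of unity of an order `n` with `φ(n) ≤ D`. (If `P` is finite then this last condition is
empty.) -/
structure FewRoots {K : Type} [Field K] [Algebra K Qbar] (P : Set ℕ) {d : ℕ}
    (ρ : ∀ (p : ℕ) [Fact p.Prime], (Qbar ≃ₐ[K] Qbar) →* Matrix (Fin d) (Fin d) ℂ_[p])
    (D e : ℕ) : Prop where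
  continuous : ∀ (p : ℕ) [Fact p.Prime], p ∈ P → Continuous (ρ p)
  all : ∀ (p : ℕ) [Fact p.Prime], p ∈ P →
    ∃ g : Qbar ≃ₐ[K] Qbar, FixesRoots p g ∧ rootEig (ρ p g) ≤ e
  almostAll : ∃ p₀ : ℕ, ∀ (p : ℕ) [Fact p.Prime], p ∈ P → p₀ ≤ p →
    ∃ g : Qbar ≃ₐ[K] Qbar, FixesRoots p g ∧ closeEig (ρ p g) D ≤ e

/-- The numbers `T₀(F)` at the bottom of the tower are the traces of all representations `ρ p`,
`p` in `P` (modulo `|F| - 1`). -/
def CommonBottom {K : Type} [Field K] [Algebra K Qbar] (P : Set ℕ) {d : ℕ}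
    (ρ : ∀ (p : ℕ) [Fact p.Prime], (Qbar ≃ₐ[K] Qbar) →* Matrix (Fin d) (Fin d) ℂ_[p])
    (ι : ∀ (p : ℕ) [Fact p.Prime], K →+* ℂ_[p]) (m : ℕ) (ζ : 𝓞 K) {s : ℕ}
    (S : Fin s → TowerStratum K) : Prop :=
  ∀ (p : ℕ) [Fact p.Prime], p ∈ P → BottomTraces (ρ p) (ι p) m ζ S

/-- The number `q = p ^ n`, `n > 0`, is a power of a prime `p` in `P`, and the numbers `T_q(F)` are
the traces of a representation, over the algebraic closure of some `ℚ_ℓ`, of dimension `d` with more
than `e` Tate classes. -/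
def BadPrimePower {K : Type} [Field K] [Algebra K Qbar] (P : Set ℕ) (m : ℕ) (ζ : 𝓞 K) {s : ℕ}
    (S : Fin s → TowerStratum K) (d j e q : ℕ) : Prop :=
  ∃ p n : ℕ, p.Prime ∧ p ∈ P ∧ 0 < n ∧ q = p ^ n ∧ ManyTateClasses p m ζ S d j e n

end Pool.Agent.KP
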