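import Pool.Agent.Lib_helper61.TT.Defs

/-!
# Orders of the roots of unity among the roots of a polynomial over a cyclotomic field
-/

set_option autoImplicit false

namespace Pool.Agent.KP

open Polynomial IntermediateField

/-- A root of unity that is a root of a polynomial of degree at most `d` over `ℚ(z)`, `z` a
primitive root of unity of order `m * p ^ a`, has an order that divides `n * p ^ b` with
`φ(n) ≤ d * φ(m)`. -/
theorem kp_order {Ω : Type} [Field Ω] [CharZero Ω] {p m a : ℕ} (hp : p.Prime) (hm : 0 < m)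
    (hpm : ¬ p ∣ m) {z : Ω} (hz : IsPrimitiveRoot z (m * p ^ a)) (L : IntermediateField ℚ Ω)
    (hL : L = IntermediateField.adjoin ℚ {z}) {f : L[X]} {d : ℕ}
    (hf0 : f ≠ 0) (hfd : f.natDegree ≤ d) {x : Ω}
    (hx : f.eval₂ (algebraMap L Ω) x = 0) {M : ℕ} (hM : 0 < M) (hxM : x ^ M = 1) :
    ∃ n b : ℕ, 0 < n ∧ n.totient ≤ d * m.totient ∧ x ^ (n * p ^ b) = 1 := by
  have hx' : IsOfFinOrder x := isOfFinOrder_iff_pow_eq_one.mpr ⟨M, hM, hxM⟩
  have hord : orderOf x ≠ 0 := hx'.orderOf_pos.ne'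
  obtain ⟨b, n, hpn, hbn⟩ := Nat.exists_eq_pow_mul_and_not_dvd hord p hp.ne_one
  have hn : 0 < n := by
    rcases Nat.eq_zero_or_pos n with h | h
    · subst h
      simp at hpn
    · exact h
  have hpa : 0 < p ^ a := pow_pos hp.pos a
  have hm0 : 0 < m * p ^ a := Nat.mul_pos hm hpa
  have hprim : IsPrimitiveRoot x (orderOf x) := IsPrimitiveRoot.orderOf x
  have hy : IsPrimitiveRoot (x ^ p ^ b) n := hprim.pow (Nat.pos_of_ne_zero hord) hbn
  have hzm : IsPrimitiveRoot (z ^ p ^ a) m := hz.pow hm0 (mul_comm m (p ^ a))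
  have hzp : IsPrimitiveRoot (z ^ m) (p ^ a) := hz.pow hm0 rfl
  have hu := hzm.pow_mul_pow_lcm hy hm.ne' hn.ne'
  set u : Ω := (z ^ p ^ a) ^ (m / m.factorizationLCMLeft n) *
    (x ^ p ^ b) ^ (n / m.factorizationLCMRight n) with hudef
  set N : ℕ := m.lcm n with hN
  have hNpos : 0 < N := Nat.lcm_pos hm hn
  have hpN : ¬ p ∣ N := by
    intro h
    have h1 : p ∣ m * n := h.trans (Nat.lcm_dvd_mul m n)
    rcases hp.dvd_mul.mp h1 with h2 | h2
    · exact hpm h2
    · exact hpn h2
  have hcop1 : Nat.Coprime (p ^ a) N :=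
    Nat.Coprime.pow_left a ((Nat.Prime.coprime_iff_not_dvd hp).mpr hpN)
  have hcop2 : Nat.Coprime m (p ^ a) :=
    (Nat.Coprime.pow_left a ((Nat.Prime.coprime_iff_not_dvd hp).mpr hpm)).symm
  have hcop : Nat.Coprime (orderOf (z ^ m)) (orderOf u) := by
    rw [← hzp.eq_orderOf, ← hu.eq_orderOf]
    exact hcop1
  have hw : IsPrimitiveRoot (z ^ m * u) (p ^ a * N) := by
    have h1 := (Commute.all (z ^ m) u).orderOf_mul_eq_mul_orderOf_of_coprime hcop
    rw [← hzp.eq_orderOf, ← hu.eq_orderOf] at h1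
    rw [← h1]
    exact IsPrimitiveRoot.orderOf _
  have hfr : ∀ {w : Ω} {m : ℕ}, 0 < m → IsPrimitiveRoot w m →
      Module.finrank ℚ (IntermediateField.adjoin ℚ {w}) = m.totient := by
    intro w m hm hw
    rw [IntermediateField.adjoin.finrank (hw.isIntegral hm).tower_top,
      ← Polynomial.cyclotomic_eq_minpoly_rat hw hm, Polynomial.natDegree_cyclotomic]
  have hxL : IsIntegral L x := by
    apply IsAlgebraic.isIntegral
    exact ⟨f, hf0, hx⟩
  set L' : IntermediateField L Ω := IntermediateField.adjoin L {x} with hL'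
  have h1 : Module.finrank L L' ≤ d := by
    rw [hL', IntermediateField.adjoin.finrank hxL]
    refine le_trans ?_ hfd
    apply Polynomial.natDegree_le_of_dvd _ hf0
    exact minpoly.dvd L x hx
  have hfinL : FiniteDimensional ℚ L := by
    rw [hL]
    exact IntermediateField.adjoin.finiteDimensional (hz.isIntegral hm0).tower_top
  have hfinL' : FiniteDimensional L L' := IntermediateField.adjoin.finiteDimensional hxL
  have hfin : FiniteDimensional ℚ L' := FiniteDimensional.trans ℚ L L'
  have h2 : Module.finrank ℚ L * Module.finrank L L' = Module.finrank ℚ L' :=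
    Module.finrank_mul_finrank ℚ L L'
  have hzL : z ∈ L := by
    rw [hL]
    exact IntermediateField.mem_adjoin_simple_self ℚ z
  have hfrL : Module.finrank ℚ L = (m * p ^ a).totient := by
    rw [hL]
    exact hfr hm0 hz
  have hzL' : z ∈ L' := by
    have := L'.algebraMap_mem ⟨z, hzL⟩
    exact this
  have hxL' : x ∈ L' := IntermediateField.mem_adjoin_simple_self L x
  have hle : IntermediateField.adjoin ℚ {z ^ m * u} ≤ L'.restrictScalars ℚ := by
    rw [IntermediateField.adjoin_simple_le_iff]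
    exact mul_mem (pow_mem hzL' _) (mul_mem (pow_mem (pow_mem hzL' _) _)
      (pow_mem (pow_mem hxL' _) _))
  have h3 : Module.finrank ℚ (IntermediateField.adjoin ℚ {z ^ m * u}) ≤ Module.finrank ℚ L' := by
    have : FiniteDimensional ℚ (L'.restrictScalars ℚ) := hfin
    exact Submodule.finrank_mono (R := ℚ)
      (s := (IntermediateField.adjoin ℚ {z ^ m * u}).toSubalgebra.toSubmodule)
      (t := (L'.restrictScalars ℚ).toSubalgebra.toSubmodule) hle
  rw [hfr (Nat.mul_pos hpa hNpos) hw, ← h2, hfrL, Nat.totient_mul hcop1,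
    Nat.totient_mul hcop2, mul_comm m.totient, mul_assoc] at h3
  have h4 : N.totient ≤ m.totient * Module.finrank L L' :=
    Nat.le_of_mul_le_mul_left h3 (Nat.totient_pos.mpr hpa)
  refine ⟨n, b, hn, ?_, ?_⟩
  · have h5 : n.totient ≤ N.totient :=
      Nat.le_of_dvd (Nat.totient_pos.mpr hNpos) (Nat.totient_dvd_of_dvd (Nat.dvd_lcm_right m n))
    refine h5.trans (h4.trans ?_)
    rw [mul_comm]
    exact Nat.mul_le_mul_right _ h1
  · rw [mul_comm, ← hbn]
    exact pow_orderOf_eq_one x

end Pool.Agent.KP
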