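import Pool.Agent.Lib_helper58.KT.Final
import Pool.Agent.Lib_helper16.KP.Order
import Pool.Agent.Lib_helper16.KP.Defs

/-!
# No bad level at a prime with few eigenvalues close to roots of unity of small order
-/

set_option autoImplicit false

namespace Pool.Agent.KP

open NumberField Topology Polynomial
open Pool.Agent.TT Pool.Agent.TB Pool.Agent.TF Pool.Agent.RF Pool.Agent.TBL Pool.Agent.TU
open Pool.Agent.KT

section red

variable {p : ℕ} [hp : Fact p.Prime] {k : Type} [Field k]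

/-- A residue map vanishes exactly on the maximal ideal. -/
theorem red_zero_iff (red : nv ℂ_[p] →+* k) (hred : ∀ x : nv ℂ_[p], ‖(x : ℂ_[p])‖ < 1 → red x = 0)
    (x : nv ℂ_[p]) : red x = 0 ↔ ‖(x : ℂ_[p])‖ < 1 := by
  refine ⟨fun h => ?_, hred x⟩
  have hx : ‖(x : ℂ_[p])‖ ≤ 1 := x.2
  by_contra hcon
  push Not at hcon
  have h1 : ‖(x : ℂ_[p])‖ = 1 := le_antisymm hx hcon
  have hx0 : (x : ℂ_[p]) ≠ 0 := by
    intro h0
    rw [h0, norm_zero] at h1
    exact zero_ne_one h1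
  have hinv : (x : ℂ_[p])⁻¹ ∈ nv ℂ_[p] := by
    change ‖(x : ℂ_[p])⁻¹‖ ≤ 1
    rw [norm_inv, h1, inv_one]
  have h2 : x * ⟨(x : ℂ_[p])⁻¹, hinv⟩ = 1 := by
    apply Subtype.ext
    exact mul_inv_cancel₀ hx0
  have h3 := congrArg red h2
  rw [map_mul, h, zero_mul, map_one] at h3
  exact zero_ne_one h3

theorem red_eq (red : nv ℂ_[p] →+* k) (hred : ∀ x : nv ℂ_[p], ‖(x : ℂ_[p])‖ < 1 → red x = 0)
    (x y : nv ℂ_[p]) (h : ‖(x : ℂ_[p]) - (y : ℂ_[p])‖ < 1) : red x = red y := by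
  have h1 : red (x - y) = 0 := hred _ h
  rw [map_sub, sub_eq_zero] at h1
  exact h1

end red

/-- **No bad level.** Let `p > d` be prime to `m`. At every level `n > 0` the number of Tate classes
is at most the number of eigenvalues of `ρ g` that are close to roots of unity of small order. -/
theorem resid {K : Type} [Field K] [NumberField K] [Algebra K Qbar] {p m : ℕ} [hp : Fact p.Prime]
    (hm : 0 < m) (hpm : ¬ p ∣ m) {ζ : 𝓞 K} (hζ : IsPrimitiveRoot ζ m) (ι : K →+* ℂ_[p]) {d : ℕ}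
    (hd : d < p) (ρ : (Qbar ≃ₐ[K] Qbar) →* Matrix (Fin d) (Fin d) ℂ_[p]) (hρ : Continuous ρ)
    (g : Qbar ≃ₐ[K] Qbar) {n : ℕ} (hn : 0 < n) (hg : ∀ z : Qbar, z ^ p ^ n = 1 → g z = z)
    (j : ℕ) {s : ℕ} (S : Fin s → TowerStratum K) (hbot : BottomTraces ρ ι m ζ S) :
    ¬ ManyTateClasses p m ζ S d j (closeEig (ρ g) (d * m.totient)) n := by
  classical
  rintro ⟨ω, hω, ℓ, hℓ, il, V, _, _, π, hfin, hV, hπ, hTate⟩
  have hpp : p.Prime := hp.out
  have hnf : NumberField (level K p n) := level_nf hpp n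
  obtain ⟨Bn, hBn⟩ := tate_eig il hV π (fun F _ _ φ => towerSum m ζ (p ^ n) ω φ S) hπ hTate
  obtain ⟨B₀, hB₀⟩ := hbot
  -- the Frobenius element
  obtain ⟨q, hq, hqB, Q, hQ, hqQ, σ, ⟨hσ1, hσ2⟩, hσ⟩ :=
    fb_dense g⁻¹ _ (nbhd_mem ρ hρ g n hg (Finset.range (d + 1)) one_pos)
      (B₀ ∪ (Bn ∪ Finset.range (p ^ n + 1)))
  rw [Finset.mem_union, Finset.mem_union, Finset.mem_range, not_or, not_or] at hqB
  obtain ⟨hqB0, hqB1, hqB2⟩ := hqB
  have hqN : p ^ n < q := by omega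
  have hqF : Fact q.Prime := ⟨hq⟩
  obtain ⟨w, Θ, hw, hqN1, hΘ1, hΘ2, hΘ3, hΘ4⟩ :=
    frob_package hpp (m := m) (ζ := ζ) hq hqN hQ hqQ hσ hσ2 S
  obtain ⟨σn, hσn, hΘn⟩ := hΘ4 n le_rfl
  obtain ⟨α, hα1, M, hM, hα2⟩ := hBn q hq hqB1 Q hQ hqQ σn (by
    intro x y hxy
    rw [hσn] at hxy
    exact hσ x y hxy)
  set Θ' : ℕ → Qbar[X] := fun r => (Θ r).map (emb K) with hΘ'
  have hα : ∀ r, 1 ≤ r → ∑ i, α i ^ r = (Θ' r).eval (w n) := by
    intro r hr
    obtain ⟨F, _, _, φ, hcard, hφ, hval⟩ := hΘn ω hω r hr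
    rw [hα1 r hr F φ hcard hφ]
    exact hval.symm
  have hq0 : (q : Qbar) ≠ 0 := by exact_mod_cast hq.ne_zero
  set c : ℚ := ((q : ℚ) ^ j)⁻¹ with hc
  set x : Fin d → Qbar := fun i => (c : Qbar) * α i with hx
  have hc' : (c : Qbar) = ((q : Qbar) ^ j)⁻¹ := by
    rw [hc, Rat.cast_inv, Rat.cast_pow, Rat.cast_natCast]
  have hxM : ∀ i, α i ^ M = ((q : Qbar) ^ M) ^ j → x i ^ M = 1 := by
    intro i hi
    rw [hx]
    simp only
    rw [mul_pow, hi, hc', inv_pow, ← pow_mul, ← pow_mul, mul_comm j M]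
    exact inv_mul_cancel₀ (pow_ne_zero _ hq0)
  have hs : ∀ r, (stw d (c : Qbar) Θ' r).eval (w n) = ∑ i, x i ^ r := by
    intro r
    rw [stw_eval]
    by_cases hr : r = 0
    · subst hr
      rw [if_pos rfl]
      simp
    · rw [if_neg hr, ← hα r (by omega), Finset.mul_sum]
      apply Finset.sum_congr rfl
      intro i _
      rw [hx, mul_pow]
  -- the orders
  have hpn : 0 < p ^ n := pow_pos hpp.pos n
  have hm0 : 0 < m * p ^ n := Nat.mul_pos hm hpn
  have hzm : emb K ζ ^ m = 1 := by rw [← map_pow, hζ.pow_eq_one, map_one]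
  obtain ⟨z, hz⟩ := exists_prim hm0
  have : NeZero (m * p ^ n) := ⟨hm0.ne'⟩
  set L : IntermediateField ℚ Qbar := IntermediateField.adjoin ℚ {z} with hL
  have hzL : z ∈ L := IntermediateField.mem_adjoin_simple_self ℚ z
  have hzmL : emb K ζ ∈ L.toSubring := by
    obtain ⟨i, -, hi⟩ := hz.eq_pow_of_pow_eq_one (ξ := emb K ζ) (by rw [pow_mul, hzm, one_pow])
    rw [← hi]
    exact pow_mem hzL i
  have hwL : w n ∈ L.toSubring := by
    obtain ⟨i, -, hi⟩ := hz.eq_pow_of_pow_eq_one (ξ := w n) (by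
      rw [mul_comm, pow_mul, (hw n le_rfl).pow_eq_one, one_pow])
    rw [← hi]
    exact pow_mem hzL i
  have hsL : ∀ r, (stw d (c : Qbar) Θ' r).eval (w n) ∈ L := by
    intro r
    rw [stw_eval]
    split_ifs
    · exact _root_.natCast_mem L d
    · apply mul_mem
      · apply pow_mem
        have h1 := L.algebraMap_mem c
        exact h1
      · exact hΘ2 L.toSubring hzmL (w n) hwL r
  let sL : ℕ → L := fun r => ⟨(stw d (c : Qbar) Θ' r).eval (w n), hsL r⟩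
  have hf : (npoly d sL).map (algebraMap L Qbar) = ∏ i, (X - C (x i)) := by
    rw [npoly_map]
    exact npoly_family x _ fun r _ => hs r
  have hfne : npoly d sL ≠ 0 := by
    intro h0
    rw [h0, Polynomial.map_zero] at hf
    exact (Polynomial.monic_prod_of_monic Finset.univ (fun i => X - C (x i))
      fun i _ => Polynomial.monic_X_sub_C _).ne_zero hf.symm
  have horder : ∀ i, x i ^ M = 1 →
      ∃ n' b : ℕ, 0 < n' ∧ n'.totient ≤ d * m.totient ∧ x i ^ (n' * p ^ b) = 1 := by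
    intro i hi
    exact kp_order hpp hm hpm hz L hL hfne (npoly_natDegree_le d sL) (x := x i) (by
      rw [← Polynomial.eval_map, hf, Polynomial.eval_prod]
      apply Finset.prod_eq_zero (Finset.mem_univ i)
      rw [Polynomial.eval_sub, Polynomial.eval_X, Polynomial.eval_C, sub_self]) hM hi
  -- the embedding into the `p`-adic numbers
  have hac : Algebra.IsAlgebraic K Qbar := by
    have : Algebra.IsAlgebraic ℚ Qbar := AlgebraicClosure.isAlgebraic ℚ
    exact Algebra.IsAlgebraic.tower_top (K := ℚ) K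
  let _ : Algebra K ℂ_[p] := ι.toAlgebra
  let θ : Qbar →ₐ[K] ℂ_[p] := IsAlgClosed.lift
  let θ' : Qbar →+* ℂ_[p] := θ
  have hθ : ∀ x : 𝓞 K, θ' (emb K x) = ι (x : K) := fun x => θ.commutes (x : K)
  obtain ⟨-, hqn⟩ := q_norm (p := p) hn hqN1 hq.one_le
  have hq0C : (q : ℂ_[p]) ≠ 0 := by
    intro h0
    rw [h0, norm_zero] at hqn
    exact zero_ne_one hqn
  have hθc : θ' (c : Qbar) = ((q : ℂ_[p]) ^ j)⁻¹ := by
    rw [map_ratCast, hc, Rat.cast_inv, Rat.cast_pow, Rat.cast_natCast]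
  have hcn : ‖((q : ℂ_[p]) ^ j)⁻¹‖ = 1 := by
    rw [norm_inv, norm_pow, hqn, one_pow, inv_one]
  have hwA : θ' (w n) ^ p ^ n = 1 := by rw [← map_pow, (hw n le_rfl).pow_eq_one, map_one]
  have hw1 : ‖θ' (w n) - 1‖ < 1 := by
    obtain ⟨δ, hδ0, hδ1, hδ⟩ := zeta_close p n
    have h1 := hδ _ hwA
    rw [norm_sub_rev]
    exact lt_of_le_of_lt h1 hδ1
  let A : Subring ℂ_[p] := (nv ℂ_[p]).toSubring
  let f : 𝓞 K →+* A := (ι.comp (algebraMap (𝓞 K) K)).codRestrict A fun x => rs_ring ι x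
  have hfA : (A.subtype).comp f = θ'.comp (emb K) := by
    apply RingHom.ext
    intro y
    rw [RingHom.comp_apply, RingHom.comp_apply, hθ]
    rfl
  let wA : A := ⟨θ' (w n), (tu_norm_one hpn hwA).le⟩
  have hΘw : ∀ r, θ' ((Θ' r).eval (w n)) = (((Θ r).map f).eval wA : A) := by
    intro r
    have h1 : ((((Θ r).map f).eval wA : A) : ℂ_[p]) = A.subtype (((Θ r).map f).eval wA) := rfl
    have h2 : A.subtype (((Θ r).map f).eval wA) =
        (Θ r).eval₂ (θ'.comp (emb K)) (θ' (w n)) := by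
      rw [Polynomial.eval_map, Polynomial.hom_eval₂, hfA]
      rfl
    have h3 : θ' ((Θ' r).eval (w n)) = (Θ r).eval₂ (θ'.comp (emb K)) (θ' (w n)) := by
      rw [hΘ']
      simp only
      rw [Polynomial.eval_map, Polynomial.hom_eval₂]
    rw [h3, h1, h2]
  have hΘ1' : ∀ r, ι ((Θ r).eval 1 : 𝓞 K) = (((Θ r).map f).eval 1 : A) := by
    intro r
    have h1 : ((((Θ r).map f).eval 1 : A) : ℂ_[p]) = A.subtype (((Θ r).map f).eval 1) := rfl
    have h2 : (1 : A) = f 1 := (map_one f).symm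
    rw [h1, Polynomial.eval_map, h2, Polynomial.eval₂_at_apply]
    rfl
  have hcongr : ∀ r, ‖θ' ((Θ' r).eval (w n)) - ι ((Θ r).eval 1 : 𝓞 K)‖ < 1 := by
    intro r
    obtain ⟨t, ht⟩ := Polynomial.sub_dvd_eval_sub wA 1 ((Θ r).map f)
    have h1 : θ' ((Θ' r).eval (w n)) - ι ((Θ r).eval 1 : 𝓞 K) = (θ' (w n) - 1) * (t : ℂ_[p]) := by
      rw [hΘw, hΘ1']
      have h2 := congrArg A.subtype ht
      rw [map_sub, map_mul, map_sub] at h2
      exact h2
    rw [h1, norm_mul]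
    have ht1 : ‖(t : ℂ_[p])‖ ≤ 1 := t.2
    calc ‖θ' (w n) - 1‖ * ‖(t : ℂ_[p])‖ ≤ ‖θ' (w n) - 1‖ * 1 :=
          mul_le_mul_of_nonneg_left ht1 (norm_nonneg _)
      _ < 1 := by rw [mul_one]; exact hw1
  -- the power sums
  have hsum : ∀ r, 1 ≤ r → ∑ i, (θ' (x i)) ^ r =
      (((q : ℂ_[p]) ^ j)⁻¹) ^ r * θ' ((Θ' r).eval (w n)) := by
    intro r hr
    rw [← hα r hr, map_sum, Finset.mul_sum]
    apply Finset.sum_congr rfl
    intro i _
    rw [hx]
    simp only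
    rw [map_mul, mul_pow, hθc, map_pow]
  have hsum1 : ∀ r, 1 ≤ r → ‖∑ i, (θ' (x i)) ^ r‖ ≤ 1 := by
    intro r hr
    rw [hsum r hr, norm_mul, norm_pow, hcn, one_pow, one_mul, hΘw]
    exact (((Θ r).map f).eval wA : A).2
  have hNε : ‖(p : ℂ_[p])‖ ^ n < 1 := pow_lt_one₀ (norm_nonneg _) (norm_p_lt p) hn.ne'
  have hps : ∀ r, 1 ≤ r → r ≤ d → ‖∑ i, (θ' (x i)) ^ r - (ρ g ^ r).trace‖ < 1 := by
    intro r hr hrd
    obtain ⟨F, _, _, φ, hcard, hφ, hval⟩ := hΘ3 r hr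
    have hfr : ∀ x y : 𝓞 Qbar, (y : Qbar) = (σ ^ r) x → y - x ^ Fintype.card F ∈ Q := by
      rw [hcard]
      exact pl_frob_pow hσ r
    have h2 := hB₀ q hq hqB0 Q hQ hqQ F φ hφ (σ ^ r) hfr
    beta_reduce at h2
    rw [hcard, ← inv_pow, map_pow] at h2
    have h3 := close hn hqN1 hq.one_le hNε j r (rs_ring ι _) h2
      (hσ1 r (Finset.mem_range.mpr (by omega)))
    have h4 : ∑ i, (θ' (x i)) ^ r - (ρ g ^ r).trace =
        (((q : ℂ_[p]) ^ j)⁻¹) ^ r * (θ' ((Θ' r).eval (w n)) - ι ((Θ r).eval 1 : 𝓞 K)) +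
          ((((q : ℂ_[p]) ^ j)⁻¹) ^ r * ι ((Θ r).eval 1 : 𝓞 K) - (ρ g ^ r).trace) := by
      rw [hsum r hr]
      ring
    rw [h4]
    apply lt_of_le_of_lt (IsUltrametricDist.norm_add_le_max _ _)
    apply max_lt
    · rw [norm_mul, norm_pow, hcn, one_pow, one_mul]
      exact hcongr r
    · rw [hval]
      exact h3
  -- the eigenvalues of `ρ g`
  obtain ⟨β, hβ⟩ := eig_family (ρ g)
  have htr : ∀ r, (ρ g ^ r).trace = ∑ i, β i ^ r := by
    intro r
    rw [tu_mtrace, ← hβ, Multiset.map_map]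
    rfl
  have htr1 : ∀ r, 1 ≤ r → r ≤ d → ‖∑ i, β i ^ r‖ ≤ 1 := by
    intro r hr hrd
    have h1 := hps r hr hrd
    rw [norm_sub_rev, htr] at h1
    exact gr_le_of_close (hsum1 r hr) h1
  have hD : ∀ j : ℕ, 1 ≤ j → j ≤ d → (j : ℂ_[p]) ≠ 0 ∧ ((j : ℂ_[p]))⁻¹ ∈ nv ℂ_[p] := by
    intro j hj1 hj2
    have h3 := tu_nat_norm (p := p) hj1 (by omega)
    refine ⟨?_, ?_⟩
    · intro h0
      rw [h0, norm_zero] at h3
      exact zero_ne_one h3
    · change ‖((j : ℂ_[p]))⁻¹‖ ≤ 1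
      rw [norm_inv, h3, inv_one]
  obtain ⟨βA, hβA, -⟩ := tw_roots (nv ℂ_[p]) (nv ℂ_[p]).subtype β (Matrix.diagonal β) hD (by
    intro r hr hrd
    refine ⟨⟨∑ i, β i ^ r, htr1 r hr hrd⟩, rfl, ?_⟩
    rw [Matrix.diagonal_pow, Matrix.trace_diagonal]
    rfl)
  obtain ⟨red, hred0, -⟩ := res_exists p (AlgebraicClosure (ZMod p))
  set y : Fin d → AlgebraicClosure (ZMod p) := fun i => red (βA i) with hy
  obtain ⟨xA, hxA, hroots⟩ := tw_roots (nv ℂ_[p]) red (fun i => θ' (x i)) (Matrix.diagonal y) hD (by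
    intro r hr hrd
    refine ⟨⟨∑ i, (θ' (x i)) ^ r, hsum1 r hr⟩, rfl, ?_⟩
    rw [Matrix.diagonal_pow, Matrix.trace_diagonal]
    have h1 : ∑ i, (y ^ r) i = red (∑ i, βA i ^ r) := by
      rw [map_sum]
      apply Finset.sum_congr rfl
      intro i _
      rw [map_pow]
      rfl
    rw [h1]
    apply red_eq red hred0
    have h2 : (((∑ i, βA i ^ r : nv ℂ_[p])) : ℂ_[p]) = ∑ i, β i ^ r := by
      have h3 : ((∑ i, βA i ^ r : nv ℂ_[p]) : ℂ_[p]) = (nv ℂ_[p]).subtype (∑ i, βA i ^ r) := rfl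
      rw [h3, map_sum]
      apply Finset.sum_congr rfl
      intro i _
      rw [map_pow, ← hβA i]
      rfl
    rw [h2, ← htr]
    exact hps r hr hrd)
  have hrootsy : (Matrix.diagonal y).charpoly.roots = Finset.univ.val.map y := by
    rw [Matrix.charpoly_diagonal]
    have h1 : (∏ i, (X - C (y i)) : (AlgebraicClosure (ZMod p))[X]) =
        ((Finset.univ.val.map y).map fun a => X - C a).prod := by
      rw [Multiset.map_map]
      rfl
    rw [h1, Polynomial.roots_multiset_prod_X_sub_C]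
  rw [hrootsy] at hroots
  -- the counting
  set D : ℕ := d * m.totient with hDdef
  have hcount : ∀ v : Fin d → AlgebraicClosure (ZMod p),
      (Finset.univ.filter fun i => ∃ N : ℕ, 0 < N ∧ N.totient ≤ D ∧ v i ^ N = 1).card =
        ((Finset.univ.val.map v).filter fun a => ∃ N : ℕ, 0 < N ∧ N.totient ≤ D ∧ a ^ N = 1).card := by
    intro v
    rw [Multiset.filter_map, Multiset.card_map, Finset.card_def, Finset.filter_val]
    rfl
  have hle1 : (Finset.univ.filter fun i => α i ^ M = ((q : Qbar) ^ M) ^ j).card ≤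
      (Finset.univ.filter fun i => ∃ N : ℕ, 0 < N ∧ N.totient ≤ D ∧ (red (xA i)) ^ N = 1).card := by
    apply Finset.card_le_card
    intro i hi
    rw [Finset.mem_filter] at hi ⊢
    refine ⟨hi.1, ?_⟩
    obtain ⟨n', b, hn', hnd, hun⟩ := horder i (hxM i hi.2)
    refine ⟨n', hn', hnd, ?_⟩
    have h5 : (xA i) ^ (n' * p ^ b) = 1 := by
      apply Subtype.ext
      have h6 : (((xA i) ^ (n' * p ^ b) : nv ℂ_[p]) : ℂ_[p]) = (xA i : ℂ_[p]) ^ (n' * p ^ b) := rfl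
      rw [h6, hxA i, ← map_pow, hun, map_one]
      rfl
    have h4 : (red (xA i)) ^ (n' * p ^ b) = 1 := by rw [← map_pow, h5, map_one]
    have h7 : ((red (xA i)) ^ n' - 1) ^ p ^ b = 0 := by
      rw [sub_pow_char_pow, one_pow, ← pow_mul, h4, sub_self]
    exact sub_eq_zero.mp ((pow_eq_zero_iff (pow_pos hpp.pos b).ne').mp h7)
  have hle2 : (Finset.univ.filter fun i => ∃ N : ℕ, 0 < N ∧ N.totient ≤ D ∧ y i ^ N = 1).card ≤
      closeEig (ρ g) D := by
    unfold closeEig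
    rw [← hβ, Multiset.filter_map, Multiset.card_map, Finset.card_def, Finset.filter_val]
    apply Multiset.card_le_card
    apply Multiset.monotone_filter_right
    rintro i ⟨N, hN, hND, h1⟩
    refine ⟨N, hN, hND, ?_⟩
    have h2 : red (βA i ^ N - 1) = 0 := by
      rw [map_sub, map_pow, map_one]
      exact sub_eq_zero.mpr h1
    rw [red_zero_iff red hred0] at h2
    have h3 : ((βA i ^ N - 1 : nv ℂ_[p]) : ℂ_[p]) = β i ^ N - 1 := by
      rw [← hβA i]
      rfl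
    rw [h3] at h2
    exact h2
  have h1 := hcount (fun i => red (xA i))
  rw [← hroots, ← hcount y] at h1
  rw [h1] at hle1
  exact absurd (lt_of_lt_of_le hα2 (hle1.trans hle2)) (lt_irrefl _)

end Pool.Agent.KP
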