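import Pool.Agent.Lib_helper16.KP.Theta

/-!
# The sums of all levels of all families at one Frobenius element
-/

set_option autoImplicit false

namespace Pool.Agent.KP

open NumberField Polynomial
open Pool.Agent.TT Pool.Agent.TB Pool.Agent.TF Pool.Agent.RF Pool.Agent.TU Pool.Agent.KT

/-- **The sums of all levels and the bottom at one Frobenius element, for all families.** -/
theorem frob_all {K : Type} [Field K] [NumberField K] [Algebra K Qbar] {p m : ℕ}
    (hp : p.Prime) {ζ : 𝓞 K} {N q : ℕ} (hq : q.Prime) (hqN : p ^ N < q) {Q : Ideal (𝓞 Qbar)}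
    (hQ : Q.IsPrime) (hqQ : (q : 𝓞 Qbar) ∈ Q) {σ : Qbar ≃ₐ[K] Qbar}
    (hσ : ∀ x y : 𝓞 Qbar, (y : Qbar) = σ x → y - x ^ q ∈ Q)
    (hfix : ∀ z : Qbar, z ^ p ^ N = 1 → σ z = z) :
    ∃ (w : ℕ → Qbar) (F : ℕ → Type) (_ : ∀ l, Field (F l)) (_ : ∀ l, Fintype (F l))
      (φ : ∀ l, 𝓞 K →+* F l) (a : ∀ l, F l → ℕ) (η : ∀ l, F l),
      (∀ n ≤ N, IsPrimitiveRoot (w n) (p ^ n)) ∧ p ^ N ∣ q - 1 ∧
      (∀ l, 1 ≤ l → Fintype.card (F l) = q ^ l ∧
        (∀ x : 𝓞 K, φ l x = 0 ↔ algebraMap (𝓞 K) (𝓞 Qbar) x ∈ Q) ∧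
        IsPrimitiveRoot (η l) (p ^ N) ∧
        ∀ y : F l, y ≠ 0 → y ^ ((Fintype.card (F l) - 1) / p ^ N) = η l ^ a l y) ∧
      ∀ {s : ℕ} (S : Fin s → TowerStratum K),
        (∀ l, 1 ≤ l → (theta (RingHom.id (𝓞 K)) m ζ (φ l) (a l) S).eval 1 =
          towerSum m ζ 1 1 (φ l) S) ∧
        (∀ n ≤ N, ∃ σn : Qbar ≃ₐ[level K p n] Qbar, (∀ x, σn x = σ x) ∧
          ∀ ω : 𝓞 (level K p n), IsPrimitiveRoot ω (p ^ n) → ∀ l, 1 ≤ l →
            ∃ (F : Type) (_ : Field F) (_ : Fintype F) (ψ : 𝓞 (level K p n) →+* F),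
              Fintype.card F = q ^ l ∧
              (∀ x : 𝓞 (level K p n), ψ x = 0 ↔
                algebraMap (𝓞 (level K p n)) (𝓞 Qbar) x ∈ Q) ∧
              (theta (emb K) m ζ (φ l) (a l) S).eval (w n) =
                emb (level K p n) (towerSum m ζ (p ^ n) ω ψ S)) := by
  classical
  have hqF : Fact q.Prime := ⟨hq⟩
  have hchar : CharP (𝓞 Qbar ⧸ Q) q := Pool.Agent.DS.frx_charP hq Q hqQ
  let j₀ : ZMod q →+* (𝓞 Qbar ⧸ Q) := ZMod.castHom (dvd_refl q) (𝓞 Qbar ⧸ Q)
  have hj₀ : Function.Injective j₀ := ZMod.castHom_injective _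
  have hpN : 0 < p ^ N := pow_pos hp.pos N
  obtain ⟨z, hz⟩ := exists_prim hpN
  let w : ℕ → Qbar := fun n => z ^ p ^ (N - n)
  have hw : ∀ n ≤ N, IsPrimitiveRoot (w n) (p ^ n) := by
    intro n hn
    apply hz.pow hpN
    rw [← pow_add]
    congr 1
    omega
  have hcoe : ∀ {L : Type} [Field L] [Algebra L Qbar] (x : 𝓞 L),
      ((algebraMap (𝓞 L) (𝓞 Qbar) x : 𝓞 Qbar) : Qbar) = emb L x := fun x => rfl
  have hinj : ∀ {x y : 𝓞 Qbar}, (x : Qbar) = y → x = y := fun h => RingOfIntegers.coe_injective h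
  -- the levels
  have hlev : ∀ n, n ≤ N → ∃ (σn : Qbar ≃ₐ[level K p n] Qbar) (φn : 𝓞 (level K p n) →+* ZMod q)
      (wn : 𝓞 (level K p n)), (∀ x, σn x = σ x) ∧ emb (level K p n) wn = w n ∧
      (∀ x : 𝓞 (level K p n), φn x = 0 ↔ algebraMap (𝓞 (level K p n)) (𝓞 Qbar) x ∈ Q) ∧
      (∀ x : 𝓞 (level K p n),
        j₀ (φn x) = Ideal.Quotient.mk Q (algebraMap (𝓞 (level K p n)) (𝓞 Qbar) x)) ∧
      (∀ ω : 𝓞 (level K p n), IsPrimitiveRoot ω (p ^ n) → IsPrimitiveRoot (φn ω) (p ^ n)) ∧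
      p ^ n ∣ q - 1 := by
    intro n hn
    have hnf : NumberField (level K p n) := level_nf hp n
    obtain ⟨σn, hσn⟩ := level_fix (K := K) hn hfix
    obtain ⟨φn, hφn1, hφn2⟩ := ft_phi (K := level K p n) hq hQ hqQ (σ := σn) (by
      intro x y hxy
      rw [hσn] at hxy
      exact hσ x y hxy)
    obtain ⟨wn, hwn⟩ := level_root (K := K) hp (w := w n) (n := n) (hw n hn).pow_eq_one
    have hpn : p ^ n < q := lt_of_le_of_lt (Nat.pow_le_pow_right hp.pos hn) hqN
    have hred : ∀ ω : 𝓞 (level K p n), IsPrimitiveRoot ω (p ^ n) →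
        IsPrimitiveRoot (φn ω) (p ^ n) ∧ p ^ n ∣ q - 1 := fun ω hω =>
      rs_reduce hq (pow_pos hp.pos n) hpn hω hQ hqQ φn hφn1
    have hwn' : IsPrimitiveRoot wn (p ^ n) := by
      have h1 : Function.Injective (emb (level K p n)) := by
        intro x y hxy
        apply RingOfIntegers.coe_injective
        exact (algebraMap (level K p n) Qbar).injective hxy
      apply IsPrimitiveRoot.of_map_of_injective (f := emb (level K p n)) _ h1
      rw [hwn]
      exact hw n hn
    exact ⟨σn, φn, wn, hσn, hwn, hφn1, fun x => hφn2 j₀ x, fun ω hω => (hred ω hω).1,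
      (hred wn hwn').2⟩
  obtain ⟨σN, φN, wN, hσN, hwN, hφN1, hφN2, hφN3, hqN1⟩ := hlev N le_rfl
  obtain ⟨φK, hφK1, hφK2⟩ := ft_phi (K := K) hq hQ hqQ hσ
  have hwNp : IsPrimitiveRoot wN (p ^ N) := by
    have h1 : Function.Injective (emb (level K p N)) := by
      intro x y hxy
      apply RingOfIntegers.coe_injective
      exact (algebraMap (level K p N) Qbar).injective hxy
    apply IsPrimitiveRoot.of_map_of_injective (f := emb (level K p N)) _ h1
    rw [hwN]
    exact hw N le_rfl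
  let _ : ∀ r, Fintype (GaloisField q r) := fun r => Fintype.ofFinite _
  have hcardF : ∀ r, 1 ≤ r → Fintype.card (GaloisField q r) = q ^ r := by
    intro r hr
    rw [← Nat.card_eq_fintype_card]
    exact GaloisField.card q r (by omega)
  let η : ∀ r, GaloisField q r := fun r => algebraMap (ZMod q) (GaloisField q r) (φN wN)
  have hη : ∀ r, IsPrimitiveRoot (η r) (p ^ N) := fun r =>
    (hφN3 wN hwNp).map_of_injective (algebraMap (ZMod q) (GaloisField q r)).injective
  have hdvd : ∀ r, 1 ≤ r → p ^ N ∣ Fintype.card (GaloisField q r) - 1 := by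
    intro r hr
    rw [hcardF r hr]
    have h1 := Nat.sub_dvd_pow_sub_pow q 1 r
    rw [one_pow] at h1
    exact hqN1.trans h1
  have ha : ∀ r (y : GaloisField q r), ∃ a : ℕ, 1 ≤ r → y ≠ 0 →
      y ^ ((Fintype.card (GaloisField q r) - 1) / p ^ N) = η r ^ a := by
    intro r y
    by_cases h : 1 ≤ r ∧ y ≠ 0
    · have : NeZero (p ^ N) := ⟨hpN.ne'⟩
      obtain ⟨a, -, ha⟩ := (hη r).eq_pow_of_pow_eq_one
        (ξ := y ^ ((Fintype.card (GaloisField q r) - 1) / p ^ N)) (by
          rw [← pow_mul, Nat.div_mul_cancel (hdvd r h.1)]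
          exact FiniteField.pow_card_sub_one_eq_one y h.2)
      exact ⟨a, fun _ _ => ha.symm⟩
    · exact ⟨0, fun h1 h2 => absurd ⟨h1, h2⟩ h⟩
  choose a ha using ha
  let φ : ∀ r, 𝓞 K →+* GaloisField q r := fun r =>
    (algebraMap (ZMod q) (GaloisField q r)).comp φK
  refine ⟨w, fun l => GaloisField q l, fun l => inferInstance, fun l => inferInstance, φ, a, η, hw,
    hqN1, ?_, ?_⟩
  · intro l hl
    refine ⟨hcardF l hl, ?_, hη l, fun y hy => ha l y hl hy⟩
    intro x
    rw [← hφK1]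
    exact map_eq_zero_iff _ (algebraMap (ZMod q) (GaloisField q l)).injective
  intro s S
  let Θ : ℕ → (𝓞 K)[X] := fun r => theta (RingHom.id (𝓞 K)) m ζ (φ r) (a r) S
  have hΘ : ∀ r, (Θ r).map (emb K) = theta (emb K) m ζ (φ r) (a r) S := by
    intro r
    rw [theta_map]
    congr 1
  refine ⟨?_, ?_⟩
  · intro r hr
    have h1 := theta_eval (K := K) (L := K) (m := m) (ζ := ζ) S (a r) (n := 1) (ω := (1 : 𝓞 K))
      (φ := φ r) one_pos IsPrimitiveRoot.one (by rw [map_one]; exact IsPrimitiveRoot.one)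
      (one_dvd _) (RingHom.id (𝓞 K)) 1 (one_pow 1) (by
        intro y hy
        rw [Nat.div_one, map_one, one_pow]
        exact FiniteField.pow_card_sub_one_eq_one y hy)
    refine Eq.trans ?_ h1
    have h2 : RingHom.id (𝓞 K) = (RingHom.id (𝓞 K)).comp
        (@algebraMap (𝓞 K) (𝓞 K) _ _ (inst_ringOfIntegersAlgebra K K)) :=
      RingHom.ext fun x => (alg_self x).symm
    have h3 : φ r = (φ r).comp
        (@algebraMap (𝓞 K) (𝓞 K) _ _ (inst_ringOfIntegersAlgebra K K)) :=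
      RingHom.ext fun x => congrArg (φ r) (alg_self x).symm
    rw [← h2, ← h3]
    rfl
  · intro n hn
    obtain ⟨σn, φn, wn, hσn, hwn, hφn1, hφn2, hφn3, hqn1⟩ := hlev n hn
    refine ⟨σn, hσn, ?_⟩
    intro ω hω r hr
    let ψ : 𝓞 (level K p n) →+* GaloisField q r :=
      (algebraMap (ZMod q) (GaloisField q r)).comp φn
    have hψK : ψ.comp (algebraMap (𝓞 K) (𝓞 (level K p n))) = φ r := by
      apply RingHom.ext
      intro x
      change algebraMap (ZMod q) (GaloisField q r) (φn (algebraMap (𝓞 K) (𝓞 (level K p n)) x)) =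
        algebraMap (ZMod q) (GaloisField q r) (φK x)
      congr 1
      apply hj₀
      rw [hφn2, hφK2 j₀]
      congr 1
    have hwη : φn wn = (φN wN) ^ p ^ (N - n) := by
      apply hj₀
      rw [map_pow, hφn2, hφN2, ← map_pow]
      congr 1
      apply hinj
      have h6 : ((algebraMap (𝓞 (level K p N)) (𝓞 Qbar) wN ^ p ^ (N - n) : 𝓞 Qbar) : Qbar) =
          ((algebraMap (𝓞 (level K p N)) (𝓞 Qbar) wN : 𝓞 Qbar) : Qbar) ^ p ^ (N - n) := rfl
      rw [h6, hcoe, hwn, hcoe, hwN]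
      change z ^ p ^ (N - n) = (z ^ p ^ (N - N)) ^ p ^ (N - n)
      rw [Nat.sub_self, pow_zero, pow_one]
    refine ⟨GaloisField q r, inferInstance, inferInstance, ψ, hcardF r hr, ?_, ?_⟩
    · intro x
      rw [← hφn1]
      exact map_eq_zero_iff _ (algebraMap (ZMod q) (GaloisField q r)).injective
    · have hdn : p ^ n ∣ Fintype.card (GaloisField q r) - 1 :=
        (pow_dvd_pow p hn).trans (hdvd r hr)
      have h1 := theta_eval (K := K) (L := level K p n) (m := m) (ζ := ζ) S (a r) (n := p ^ n)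
        (ω := ω) (φ := ψ) (pow_pos hp.pos n) hω
        ((hφn3 ω hω).map_of_injective (algebraMap (ZMod q) (GaloisField q r)).injective)
        hdn (emb (level K p n)) wn (by
          apply RingOfIntegers.coe_injective
          apply (algebraMap (level K p n) Qbar).injective
          rw [map_pow, map_pow, map_one, map_one]
          have h3 : algebraMap (level K p n) Qbar (algebraMap _ _ wn) = w n := hwn
          rw [h3]
          exact (hw n hn).pow_eq_one) (by
          intro y hy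
          change _ = (algebraMap (ZMod q) (GaloisField q r) (φn wn)) ^ a r y
          rw [hwη, map_pow, ← pow_mul, mul_comm, pow_mul]
          have h4 : (Fintype.card (GaloisField q r) - 1) / p ^ n =
              (Fintype.card (GaloisField q r) - 1) / p ^ N * p ^ (N - n) := by
            apply Nat.div_eq_of_eq_mul_left (pow_pos hp.pos n)
            rw [mul_assoc, ← pow_add, Nat.sub_add_cancel hn, Nat.div_mul_cancel (hdvd r hr)]
          rw [h4, pow_mul, ha r y hr hy])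
      rw [hψK, hwn] at h1
      rw [← h1]
      congr 1

end Pool.Agent.KP
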