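import Pool.Agent.Lib_helper58.KT.Defs

/-!
# Families with several functions: definitions
-/

set_option autoImplicit false

namespace Pool.Agent.KP

open NumberField Pool.Agent.TT Pool.Agent.KT

/-- A stratum with `r` functions `G_i / D_i`: the affine space with `M` coordinates, polynomials `H`,
`G_i` and `D_i` over the integers of `K` and an integral coefficient `c`. -/
structure MultiStratum (K : Type) [Field K] (r : ℕ) where
  M : ℕ
  H : MvPolynomial (Fin M) (𝓞 K)
  G : Fin r → MvPolynomial (Fin M) (𝓞 K)
  D : Fin r → MvPolynomial (Fin M) (𝓞 K)
  c : ℤ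

/-- The stratum with the one function `∏ (G_i / D_i) ^ a_i`. -/
noncomputable def MultiStratum.along {K : Type} [Field K] {r : ℕ} (S : MultiStratum K r)
    (a : Fin r → ℕ) : TowerStratum K where
  M := S.M
  H := S.H
  G := ∏ i, S.G i ^ a i
  D := ∏ i, S.D i ^ a i
  c := S.c

/-- The family of all strata with the functions `∏ (G_i / D_i) ^ a_i`: the sums for this family
belong to the character with the exponents `a_i`. -/
noncomputable def alongFamily {K : Type} [Field K] {r s : ℕ} (S : Fin s → MultiStratum K r)
    (a : Fin r → ℕ) : Fin s → TowerStratum K := fun k => (S k).along a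

end Pool.Agent.KP
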