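import Pool.Agent.Lib_helper58.KT.Frob
import Pool.Agent.Lib_helper16.KP.Multi

/-!
# Generating polynomials in several variables
-/

set_option autoImplicit false

namespace Pool.Agent.KP

open NumberField
open Pool.Agent.TT Pool.Agent.TB Pool.Agent.TF Pool.Agent.RF Pool.Agent.TU Pool.Agent.KT

/-- The value of the function `G_i / D_i` at a point over `F` (`0` if `D_i` vanishes). -/
noncomputable def MultiStratum.val {K : Type} [Field K] {r : ℕ} (S : MultiStratum K r) {F : Type}
    [Field F] (φ : 𝓞 K →+* F) (x : Fin S.M → F) (i : Fin r) : F :=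
  (S.G i).eval₂ φ x / (S.D i).eval₂ φ x

open Classical in
/-- The generating polynomial of the strata with respect to an index function. -/
noncomputable def thetaM {K : Type} [Field K] {A : Type} [CommRing A] (f : 𝓞 K →+* A)
    {F : Type} [Field F] [Fintype F] (m : ℕ) (ζ : 𝓞 K) (φ : 𝓞 K →+* F) (a : F → ℕ) {r s : ℕ}
    (S : Fin s → MultiStratum K r) : MvPolynomial (Fin r) A :=
  ∑ k, MvPolynomial.C ((S k).c : A) * ∑ x : Fin (S k).M → F,
    if ∃ i, (S k).val φ x i = 0 then 0 else
      MvPolynomial.C (f (residueSymbol m ζ φ ((S k).H.eval₂ φ x))) *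
        ∏ i, MvPolynomial.X i ^ a ((S k).val φ x i)

section theta

variable {K : Type} [Field K] {F : Type} [Field F] [Fintype F] {m : ℕ} {ζ : 𝓞 K} {r s : ℕ}
  (S : Fin s → MultiStratum K r) (a : F → ℕ)

theorem thetaM_map {A B : Type} [CommRing A] [CommRing B] (f : 𝓞 K →+* A) (g : A →+* B)
    (φ : 𝓞 K →+* F) :
    MvPolynomial.map g (thetaM f m ζ φ a S) = thetaM (g.comp f) m ζ φ a S := by
  classical
  unfold thetaM
  rw [map_sum]
  apply Finset.sum_congr rfl
  intro k _
  rw [map_mul, MvPolynomial.map_C, map_intCast, map_sum]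
  congr 1
  apply Finset.sum_congr rfl
  intro x _
  split_ifs
  · rw [map_zero]
  · rw [map_mul, MvPolynomial.map_C, map_prod, RingHom.comp_apply]
    simp only [map_pow, MvPolynomial.map_X]

omit [Fintype F] in
theorem along_val (T : MultiStratum K r) (b : Fin r → ℕ) (φ : 𝓞 K →+* F) (x : Fin T.M → F) :
    (T.along b).val φ x = ∏ i, T.val φ x i ^ b i := by
  have h1 : ∀ (P : Fin r → MvPolynomial (Fin T.M) (𝓞 K)), (∏ i, P i ^ b i).eval₂ φ x =
      ∏ i, (P i).eval₂ φ x ^ b i := by
    intro P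
    have h2 := map_prod (MvPolynomial.eval₂Hom φ x) (fun i => P i ^ b i) Finset.univ
    simp only [map_pow, MvPolynomial.coe_eval₂Hom] at h2
    exact h2
  change (∏ i, T.G i ^ b i).eval₂ φ x / (∏ i, T.D i ^ b i).eval₂ φ x = _
  rw [h1, h1, ← Finset.prod_div_distrib]
  apply Finset.prod_congr rfl
  intro i _
  unfold MultiStratum.val
  rw [div_pow]

/-- The values of the generating polynomial in several variables are the values of the generating
polynomials in one variable. -/
theorem thetaM_eval {A : Type} [CommRing A] (f : 𝓞 K →+* A) (φ : 𝓞 K →+* F) {Q : ℕ} (hQ : 0 < Q)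
    {η : F} (hη : IsPrimitiveRoot η Q)
    (ha : ∀ y : F, y ≠ 0 → y ^ ((Fintype.card F - 1) / Q) = η ^ a y) {w : A} (hw : w ^ Q = 1)
    {b : Fin r → ℕ} (hb : ∀ i, 0 < b i) :
    MvPolynomial.eval (fun i => w ^ b i) (thetaM f m ζ φ a S) =
      (theta f m ζ φ a (alongFamily S b)).eval w := by
  classical
  unfold thetaM theta
  rw [map_sum, Polynomial.eval_finsetSum]
  apply Finset.sum_congr rfl
  intro k _
  rw [map_mul, MvPolynomial.eval_C, Polynomial.eval_mul, Polynomial.eval_C, map_sum,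
    Polynomial.eval_finsetSum]
  congr 1
  apply Finset.sum_congr rfl
  intro x _
  have hval : (alongFamily S b k).val φ x = ∏ i, (S k).val φ x i ^ b i := along_val (S k) b φ x
  by_cases hz : ∃ i, (S k).val φ x i = 0
  · obtain ⟨i, hi⟩ := hz
    rw [if_pos ⟨i, hi⟩, if_pos, map_zero, Polynomial.eval_zero]
    rw [hval]
    exact Finset.prod_eq_zero (Finset.mem_univ i) (by rw [hi, zero_pow (hb i).ne'])
  · have hne : ∀ i, (S k).val φ x i ≠ 0 := fun i hi => hz ⟨i, hi⟩
    have hne2 : ∏ i, (S k).val φ x i ^ b i ≠ 0 :=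
      Finset.prod_ne_zero_iff.mpr fun i _ => pow_ne_zero _ (hne i)
    rw [if_neg hz, if_neg (by rw [hval]; exact hne2), map_mul, MvPolynomial.eval_C, map_prod,
      Polynomial.eval_mul, Polynomial.eval_C, Polynomial.eval_pow, Polynomial.eval_X]
    congr 1
    simp only [map_pow, MvPolynomial.eval_X]
    rw [hval]
    -- the exponents are congruent
    have h1 : η ^ a (∏ i, (S k).val φ x i ^ b i) = η ^ ∑ i, b i * a ((S k).val φ x i) := by
      rw [← ha _ hne2, ← Finset.prod_pow, ← Finset.prod_pow_eq_pow_sum]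
      apply Finset.prod_congr rfl
      intro i _
      rw [← pow_mul, mul_comm, pow_mul, ha _ (hne i), ← pow_mul, mul_comm]
    have hfin : IsOfFinOrder η := isOfFinOrder_iff_pow_eq_one.mpr ⟨Q, hQ, hη.pow_eq_one⟩
    rw [hfin.pow_eq_pow_iff_modEq, ← hη.eq_orderOf] at h1
    have h2 : w ^ a (∏ i, (S k).val φ x i ^ b i) = w ^ ∑ i, b i * a ((S k).val φ x i) := by
      rw [pow_eq_pow_mod _ hw, pow_eq_pow_mod (∑ i, b i * a ((S k).val φ x i)) hw, h1]
    change ∏ i, (w ^ b i) ^ a ((S k).val φ x i) = w ^ a (∏ i, (S k).val φ x i ^ b i)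
    rw [h2, ← Finset.prod_pow_eq_pow_sum]
    apply Finset.prod_congr rfl
    intro i _
    rw [← pow_mul]

end theta

end Pool.Agent.KP
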